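import Mathlib
import Pool.Agent.W757.BL.Defs

set_option autoImplicit false
set_option linter.unusedVariables false

namespace Pool.Agent.W930.BL

open Set Filter Topology Pool.Agent.W757.BL

theorem t_CNV : S_CNV := by
  intro x y x' y' L N hCv hCF
  refine ⟨?_, ?_⟩
  · intro c hc
    have hcs : ∀ i, i ≤ N + 1 → cs L (fun i : Fin N => c (i + 1) - c 0) i = c i - c 0 := by
      intro i hi
      cases i with
      | zero => simp [cs]
      | succ j =>
        rw [cs]
        split_ifs with h
        · rfl
        · have hj : j = N := by omega
          subst hj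
          have := hc.per 0
          rw [zero_add] at this
          rw [this]
          ring
    have hlt : ∀ i, i ≤ N → cs L (fun i : Fin N => c (i + 1) - c 0) i <
        cs L (fun i : Fin N => c (i + 1) - c 0) (i + 1) := by
      intro i hi
      rw [hcs i (by omega), hcs (i + 1) (by omega)]
      have := hc.mono i
      linarith
    refine ⟨fun i => c (i + 1) - c 0, fun i hi => (hlt i hi).le, hlt, ?_, ?_⟩
    · intro i hi
      rw [hcs i hi]; ring
    · unfold PP SS
      refine Finset.sum_congr rfl fun i hi => ?_
      rw [Finset.mem_range] at hi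
      rw [hcs i (by omega), hcs (i + 1) (by omega)]
      congr 1 <;> ring
  · intro a u hu
    have hN : 0 < N + 1 := Nat.succ_pos N
    have hL : cs L u (N + 1) = L := by
      rw [cs, dif_neg (lt_irrefl N)]
    have h0 : cs L u 0 = 0 := by simp [cs]
    have hval : ∀ i, i ≤ N + 1 →
        a + cs L u (i % (N + 1)) + ((i / (N + 1) : ℕ) : ℝ) * L = a + cs L u i := by
      intro i hi
      rcases Nat.lt_or_ge i (N + 1) with h | h
      · rw [Nat.mod_eq_of_lt h, Nat.div_eq_of_lt h]
        push_cast; ring
      · have e : i = N + 1 := le_antisymm hi h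
        rw [e, Nat.mod_self, Nat.div_self hN, hL, h0]
        push_cast; ring
    refine ⟨fun i => a + cs L u (i % (N + 1)) + ((i / (N + 1) : ℕ) : ℝ) * L, ⟨?_, ?_⟩, hval, ?_⟩
    · intro i
      have hm := Nat.mod_lt i hN
      have hd := Nat.div_add_mod i (N + 1)
      rcases Nat.lt_or_ge (i % (N + 1)) N with h | h
      · have e1 : (i + 1) % (N + 1) = i % (N + 1) + 1 := by
          rw [Nat.add_mod, Nat.mod_eq_of_lt (show i % (N + 1) + 1 % (N + 1) < N + 1 by
            rcases Nat.eq_zero_or_pos N with h0 | h0
            · omega
            · rw [Nat.mod_eq_of_lt (show 1 < N + 1 by omega)]; omega)]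
          rw [Nat.mod_eq_of_lt (show 1 < N + 1 by omega)]
        have e2 : (i + 1) / (N + 1) = i / (N + 1) := by
          have hd' := Nat.div_add_mod (i + 1) (N + 1)
          rw [e1] at hd'
          have : (N + 1) * ((i + 1) / (N + 1)) = (N + 1) * (i / (N + 1)) := by omega
          exact Nat.eq_of_mul_eq_mul_left hN this
        rw [e1, e2]
        have := hu (i % (N + 1)) h.le
        linarith
      · have e0 : i % (N + 1) = N := by omega
        have e3 : i + 1 = (N + 1) * (i / (N + 1) + 1) := by
          rw [e0] at hd
          rw [Nat.mul_add, mul_one]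
          omega
        have e1 : (i + 1) % (N + 1) = 0 := by
          rw [e3]; exact Nat.mul_mod_right _ _
        have e2 : (i + 1) / (N + 1) = i / (N + 1) + 1 := by
          conv_lhs => rw [e3]
          exact Nat.mul_div_cancel_left _ hN
        rw [e0, e1, e2, h0]
        have := hu N le_rfl
        rw [hL] at this
        push_cast
        linarith
    · intro i
      rw [Nat.add_mod_right, Nat.add_div_right _ hN]
      push_cast
      ring
    · unfold PP SS
      refine Finset.sum_congr rfl fun i hi => ?_
      rw [Finset.mem_range] at hi
      simp only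
      rw [hval i (by omega), hval (i + 1) (by omega)]

end Pool.Agent.W930.BL
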